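import Pool.Agent.H.MP_454fc7_co.B

namespace Pool.Agent.Results.MP_454fc7_co.Yes

open Pool.Agent.H.MP_454fc7_co

theorem result : ∃ (n : ℕ) (M M' : Matroid (Fin n)), M.E = Set.univ ∧ M'.E = Set.univ ∧
    Conn M ∧ Conn M' ∧ P M' ⊂ P M ∧ ¬ ∃ K, Cells M K ∧ P M' ∈ K :=
  ⟨8, M1, M2, rfl, rfl, conn1, conn2, ssub, fun ⟨K, h1, h2⟩ => main K h1 h2⟩

end Pool.Agent.Results.MP_454fc7_co.Yes
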